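import Pool.Agent.Y216.SV.Hul3

/-!
MP_1dc56d_ag, Q1 and Q2: rationality and unirationality of the closed subvarieties of the variety
`W` in `P^N` of the vectors `x` such that, for some polynomial `H` of degree at most `n`,
`x i ^ m = H (a i)` for all `i` (for instance, the vectors whose squares are the values at the
constants `a i` of a polynomial of degree at most `n`). Here `n` and `m ≥ 2` are arbitrary and `N`
is large.

`K` is the function field of the subvariety `V`, `w` its dimension and `y` its generic point:
`y i ^ m = H (a i)` for a polynomial `H` of degree at most `n` over `K`.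
-/

set_option autoImplicit false

namespace Pool.Agent.Results.MP_1dc56d_ag.PowerValueRationality

open Pool.Agent.W602.GT Pool.Agent.TH710.SP Pool.Agent.TH710.WH Pool.Agent.Y190.BV
  Pool.Agent.Y216.SV Pool.Agent.W603.GX

/-- Let `k` be an algebraically closed field of characteristic zero (for instance the field of
algebraic numbers), `m ≥ 2`, `4 n + (n + 1) ^ 2 < 2 (N + 1)` and `a 0, ..., a N` distinct elements
of `k`. Let `W` be the variety of the `x` in `P^N` such that `x i ^ m = H (a i)` for all `i` for some
polynomial `H` of degree at most `n`, and `V` any closed subvariety of `W`, of dimension `w`.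

(1) If `V` is rational, or unirational, or special, or the image of a special variety, then `V` is
contained in a linear subspace of `P^N` that is contained in `W` and has dimension at most `n / m`;
in particular the dimension of `V` is at most `n / m`.

(2) If `n < (w + 1) m`, that is `w > n / m - 1`, the following are equivalent: `V` is a linear
subspace of `P^N`; `V` is rational; `V` is unirational; `V` is the image of a special variety; `V` is
special. -/
theorem result {k : Type} [Field k] [IsAlgClosed k] [CharZero k] {N n m : ℕ} (hm : 2 ≤ m)
    (hN : 4 * n + (n + 1) ^ 2 < 2 * (N + 1)) {a : Fin (N + 1) → k}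
    (ha : Function.Injective a) {K : Type} [Field K] [Algebra k K] {w : ℕ}
    (hw : Algebra.trdeg k K = w) {y : Fin (N + 1) → K} (hy0 : y ≠ 0) (hgen : coords k y = ⊤)
    {H : Polynomial K} (hH : H.natDegree ≤ n)
    (hy : ∀ i, y i ^ m = H.eval (algebraMap k K (a i))) :
    (PurelyTranscendental k K ∨ Unirational k y ∨ Special k K w (fun _ => False) ∨
      SpecialDominated k y → ∃ e, e * m ≤ n ∧ w ≤ e ∧ InLinearSpace k a n m e y) ∧
    (n < (w + 1) * m → [IsLinear k y, PurelyTranscendental k K, Unirational k y,
      SpecialDominated k y, Special k K w (fun _ => False)].TFAE) := by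
  have hy' : SubVar (buchi a n m) K w y :=
    ⟨hy0, mem_of_poly a n m y H hH fun i => (hy i).symm, hgen, hw⟩
  refine ⟨?_, rational_tfae hm hN ha hy'⟩
  rintro (h | h | h | h)
  · exact (inLinear_of_dominated hm hN ha hy'
      (dominated_of_special hw (special_of_rational hw h))).1
  · exact (inLinear_of_dominated hm hN ha hy' (dominated_of_unirational h)).1
  · exact (inLinear_of_dominated hm hN ha hy' (dominated_of_special hw h)).1
  · exact (inLinear_of_dominated hm hN ha hy' h).1

end Pool.Agent.Results.MP_1dc56d_ag.PowerValueRationality
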